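import Pool.Agent.H26.Lib.R_seed8.W353.L1.Mean
import Pool.Agent.H26.Lib.R_seed8.W353.L1.Trig

/-! Equidistribution of `q_v^{-iτ}` in every Frobenius class. -/

set_option autoImplicit false

namespace Pool.Agent.W353.L1

open Complex Filter Topology ComplexConjugate Pool.Agent.H341R2 NumberField IsDedekindDomain
  Pool.Agent.W401.Cheb Pool.Agent.W540.BE

/-- approximation of limits -/
theorem tendsto_of_approx {l : Filter ℝ} {A : ℝ → ℝ} {y C : ℝ}
    (h : ∀ η : ℝ, 0 < η → ∃ (A' : ℝ → ℝ) (y' : ℝ), Tendsto A' l (𝓝 y') ∧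
      (∀ᶠ ε in l, |A ε - A' ε| ≤ C * η) ∧ |y - y'| ≤ C * η) : Tendsto A l (𝓝 y) := by
  rw [Metric.tendsto_nhds]
  intro δ hδ
  obtain ⟨A', y', h1, h2, h3⟩ := h (δ / (4 * (|C| + 1))) (by positivity)
  have h4 : C * (δ / (4 * (|C| + 1))) ≤ δ / 4 := by
    have h5 : C ≤ |C| + 1 := (le_abs_self C).trans (by linarith)
    calc C * (δ / (4 * (|C| + 1))) ≤ (|C| + 1) * (δ / (4 * (|C| + 1))) :=
          mul_le_mul_of_nonneg_right h5 (by positivity)
      _ = δ / 4 := by field_simp
  filter_upwards [(Metric.tendsto_nhds.1 h1) (δ / 4) (by positivity), h2] with ε h5 h6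
  rw [Real.dist_eq] at h5 ⊢
  have e : A ε - y = (A ε - A' ε) + (A' ε - y') - (y - y') := by ring
  rw [e]
  calc |(A ε - A' ε) + (A' ε - y') - (y - y')|
      ≤ |A ε - A' ε| + |A' ε - y'| + |y - y'| := by
        refine (abs_sub _ _).trans (add_le_add (abs_add_le _ _) le_rfl)
    _ < δ := by linarith

section
variable {F : Type} [Field F] [NumberField F]

/-- the number `q_v^{-iτ}` -/
noncomputable def zz (τ : ℝ) (v : HeightOneSpectrum (𝓞 F)) : ℂ :=
  ((nm F v : ℕ) : ℂ) ^ (-(τ * I))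

theorem norm_zz (τ : ℝ) (v : HeightOneSpectrum (𝓞 F)) : ‖zz τ v‖ = 1 :=
  norm_cpow_I (by have := two_le_nm v; omega) τ

theorem zz_zpow (τ : ℝ) (v : HeightOneSpectrum (𝓞 F)) (m : ℤ) :
    (zz τ v) ^ m = ((nm F v : ℕ) : ℂ) ^ (-(((m * τ : ℝ) : ℂ) * I)) := by
  unfold zz
  rw [← Complex.cpow_int_mul]
  congr 1
  push_cast
  ring

theorem avR_const_mul (U : Subgroup (GK F)) [Finite (GK F ⧸ U)] (c : ℝ) (ψ : GK F ⧸ U → ℝ) :
    avR U (fun q => c * ψ q) = c * avR U ψ := by
  classical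
  let _ : Fintype (GK F ⧸ U) := Fintype.ofFinite _
  unfold avR
  rw [finsum_eq_sum_of_fintype, finsum_eq_sum_of_fintype, ← Finset.mul_sum]
  ring

theorem avR_nonneg (U : Subgroup (GK F)) {ψ : GK F ⧸ U → ℝ} (h : ∀ q, 0 ≤ ψ q) :
    0 ≤ avR U ψ := by
  unfold avR
  exact mul_nonneg (by positivity) (finsum_nonneg h)

theorem avR_le (U : Subgroup (GK F)) [Finite (GK F ⧸ U)] {ψ : GK F ⧸ U → ℝ} {B : ℝ}
    (h : ∀ q, ψ q ≤ B) : avR U ψ ≤ B := by
  classical
  let _ : Fintype (GK F ⧸ U) := Fintype.ofFinite _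
  unfold avR
  rw [finsum_eq_sum_of_fintype]
  have h1 : ∑ q, ψ q ≤ Nat.card (GK F ⧸ U) * B := by
    refine (Finset.sum_le_card_nsmul _ _ B fun q _ => h q).trans (le_of_eq ?_)
    rw [nsmul_eq_mul, Finset.card_univ, Nat.card_eq_fintype_card]
  have h2 : (0 : ℝ) < Nat.card (GK F ⧸ U) := by exact_mod_cast Nat.card_pos
  calc (Nat.card (GK F ⧸ U) : ℝ)⁻¹ * ∑ q, ψ q
      ≤ (Nat.card (GK F ⧸ U) : ℝ)⁻¹ * (Nat.card (GK F ⧸ U) * B) :=
        mul_le_mul_of_nonneg_left h1 (by positivity)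
    _ = B := by rw [← mul_assoc, inv_mul_cancel₀ h2.ne', one_mul]

variable (U : Subgroup (GK F)) [U.Normal] (hU : IsOpen (U : Set (GK F)))
  [Finite (GK F ⧸ U)] (g : GK F ⧸ U → ℝ) (u : GK F ⧸ U → ℂ)
  (hgc : ∀ a x, g (x * a * x⁻¹) = g a) (huc : ∀ a x, u (x * a * x⁻¹) = u a)
  (hgi : ∀ q, g q⁻¹ = g q) (hui : ∀ q, u q⁻¹ = conj (u q)) (hu1 : ∀ q, ‖u q‖ = 1)
  (σ : HeightOneSpectrum (𝓞 F) → GK F) (hσ : ∀ v, IsFrob v (σ v)) {τ : ℝ} (hτ : τ ≠ 0)

include hU hgc huc hgi hui hu1 hσ hτ in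
/-- powers -/
theorem mono_lim (n : ℕ) :
    Tendsto (fun ε : ℝ => (EP (nm F) ε fun v => g (QuotientGroup.mk (σ v)) *
      ((u (QuotientGroup.mk (σ v)) * zz τ v).re) ^ n) / lam ε) (𝓝[>] 0)
      (𝓝 (avR U g * Mf fun x => x ^ n)) := by
  classical
  let _ : Fintype (GK F ⧸ U) := Fintype.ofFinite _
  set ψ : ℕ → GK F ⧸ U → ℂ := fun k q => ((g q * cc n k : ℝ) : ℂ) * (u q) ^ (2 * (k : ℤ) - n)
    with hψ
  have hu0 : ∀ q, u q ≠ 0 := fun q h => by
    have := hu1 q
    rw [h, norm_zero] at this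
    exact zero_ne_one this
  have hψc : ∀ k a x, ψ k (x * a * x⁻¹) = ψ k a := by
    intro k a x
    rw [hψ]
    simp only
    rw [hgc, huc]
  have hψi : ∀ k q, ψ k q⁻¹ = conj (ψ k q) := by
    intro k q
    rw [hψ]
    simp only
    rw [hgi, hui, map_mul, Complex.conj_ofReal, map_zpow₀]
  have h1 : ∀ k ∈ Finset.range (n + 1), Tendsto (fun ε : ℝ => (EP (nm F) ε fun v =>
      (ψ k (QuotientGroup.mk (σ v)) * (zz τ v) ^ (2 * (k : ℤ) - n)).re) / lam ε) (𝓝[>] 0)
      (𝓝 (if 2 * (k : ℤ) - n = 0 then avR U g * cc n k else 0)) := by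
    intro k _
    have h2 := cheb_edge U hU (ψ k) (hψc k) _ (avC_real U (ψ k) (hψi k)) σ hσ
      (((2 * (k : ℤ) - n : ℤ) : ℝ) * τ)
    have h3 : (if ((2 * (k : ℤ) - n : ℤ) : ℝ) * τ = 0 then (avC U (ψ k)).re else 0) =
        if 2 * (k : ℤ) - n = 0 then avR U g * cc n k else 0 := by
      by_cases h : 2 * (k : ℤ) - n = 0
      · rw [if_pos h, if_pos (by rw [h]; simp)]
        have h4 : ψ k = fun q => ((cc n k * g q : ℝ) : ℂ) := by
          funext q
          rw [hψ]
          simp only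
          rw [h, zpow_zero, mul_one, mul_comm]
        rw [h4, avC_ofReal, Complex.ofReal_re, avR_const_mul, mul_comm]
      · rw [if_neg h, if_neg]
        intro h5
        rcases mul_eq_zero.1 h5 with h6 | h6
        · exact h (by exact_mod_cast h6)
        · exact hτ h6
    rw [h3] at h2
    refine h2.congr fun ε => ?_
    congr 2
    funext v
    rw [zz_zpow]
  have h2 := tendsto_finsetSum _ h1
  have h3 : ∑ k ∈ Finset.range (n + 1), (if 2 * (k : ℤ) - n = 0 then avR U g * cc n k else 0) =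
      avR U g * Mf fun x => x ^ n := by
    rw [Mf_pow, Finset.mul_sum]
    refine Finset.sum_congr rfl fun k _ => ?_
    rw [mul_ite, mul_zero]
  rw [h3] at h2
  refine h2.congr' ?_
  filter_upwards [self_mem_nhdsWithin] with ε hε
  have hε' : (0 : ℝ) < ε := hε
  rw [← Finset.sum_div, ← EP_sum normSys hε' (Finset.range (n + 1))
    (fun k v => (ψ k (QuotientGroup.mk (σ v)) * (zz τ v) ^ (2 * (k : ℤ) - n)).re)
    (fun k => ∑ q, ‖ψ k q‖) (by
      intro k _ v
      refine (Complex.abs_re_le_norm _).trans ?_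
      rw [norm_mul, norm_zpow, norm_zz, one_zpow, mul_one]
      exact Finset.single_le_sum (f := fun q => ‖ψ k q‖) (fun q _ => norm_nonneg _)
        (Finset.mem_univ _))]
  congr 2
  funext v
  set q : GK F ⧸ U := QuotientGroup.mk (σ v)
  have hw : ‖u q * zz τ v‖ = 1 := by rw [norm_mul, hu1, norm_zz, one_mul]
  rw [cos_pow_expand _ hw n, ← Complex.re_ofReal_mul, Finset.mul_sum, Complex.re_sum]
  refine Finset.sum_congr rfl fun k _ => ?_
  rw [hψ]
  simp only
  rw [mul_zpow]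
  congr 1
  push_cast
  ring

include hU hgc huc hgi hui hu1 hσ hτ in
/-- polynomials -/
theorem poly_lim (P : Polynomial ℝ) :
    (∃ B : ℝ, ∀ v : HeightOneSpectrum (𝓞 F), |g (QuotientGroup.mk (σ v)) *
      P.eval ((u (QuotientGroup.mk (σ v)) * zz τ v).re)| ≤ B) ∧
    Tendsto (fun ε : ℝ => (EP (nm F) ε fun v => g (QuotientGroup.mk (σ v)) *
      P.eval ((u (QuotientGroup.mk (σ v)) * zz τ v).re)) / lam ε) (𝓝[>] 0)
      (𝓝 (avR U g * Mf fun x => P.eval x)) := by
  classical
  let _ : Fintype (GK F ⧸ U) := Fintype.ofFinite _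
  have hre : ∀ v : HeightOneSpectrum (𝓞 F),
      |(u (QuotientGroup.mk (σ v)) * zz τ v).re| ≤ 1 := by
    intro v
    refine (Complex.abs_re_le_norm _).trans ?_
    rw [norm_mul, hu1, norm_zz, one_mul]
  have hgb : ∀ v : HeightOneSpectrum (𝓞 F), |g (QuotientGroup.mk (σ v))| ≤ ∑ q, |g q| :=
    fun v => Finset.single_le_sum (f := fun q => |g q|) (fun q _ => abs_nonneg _)
      (Finset.mem_univ _)
  induction P using Polynomial.induction_on' with
  | add P Q hP hQ =>
    obtain ⟨⟨B, hB⟩, hP⟩ := hP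
    obtain ⟨⟨B', hB'⟩, hQ⟩ := hQ
    refine ⟨⟨B + B', fun v => ?_⟩, ?_⟩
    · rw [Polynomial.eval_add, mul_add]
      exact (abs_add_le _ _).trans (add_le_add (hB v) (hB' v))
    · have h1 := hP.add hQ
      have h2 : avR U g * (Mf fun x => P.eval x) + avR U g * (Mf fun x => Q.eval x) =
          avR U g * Mf fun x => (P + Q).eval x := by
        simp only [Polynomial.eval_add]
        rw [Mf_add P.continuous Q.continuous, mul_add]
      rw [h2] at h1
      refine h1.congr' ?_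
      filter_upwards [self_mem_nhdsWithin] with ε hε
      rw [← add_div, ← EP_add normSys hε hB hB']
      congr 2
      funext v
      rw [Polynomial.eval_add, mul_add]
  | monomial n a =>
    refine ⟨⟨(∑ q, |g q|) * |a|, fun v => ?_⟩, ?_⟩
    · rw [Polynomial.eval_monomial, abs_mul, abs_mul, abs_pow]
      refine mul_le_mul (hgb v) ?_ (by positivity) (Finset.sum_nonneg fun q _ => abs_nonneg _)
      exact mul_le_of_le_one_right (abs_nonneg _) (pow_le_one₀ (abs_nonneg _) (hre v))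
    · have h1 := (mono_lim U hU g u hgc huc hgi hui hu1 σ hσ hτ n).const_mul a
      have h2 : a * (avR U g * Mf fun x => x ^ n) =
          avR U g * Mf fun x => (Polynomial.monomial n a).eval x := by
        simp only [Polynomial.eval_monomial]
        rw [Mf_const_mul]
        ring
      rw [h2] at h1
      refine h1.congr fun ε => ?_
      rw [← mul_div_assoc, ← EP_const_mul]
      congr 2
      funext v
      rw [Polynomial.eval_monomial]
      ring

end

section
variable {F : Type} [Field F] [NumberField F]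

/-- **Equidistribution**: the mean value of the absolute value -/
theorem equi (U : Subgroup (GK F)) [U.Normal] (hU : IsOpen (U : Set (GK F)))
    [Finite (GK F ⧸ U)] (f : GK F ⧸ U → ℂ) (hfc : ∀ a x, f (x * a * x⁻¹) = f a)
    (hfi : ∀ q, f q⁻¹ = conj (f q))
    (σ : HeightOneSpectrum (𝓞 F) → GK F) (hσ : ∀ v, IsFrob v (σ v)) {τ : ℝ} (hτ : τ ≠ 0) :
    Tendsto (fun ε : ℝ => (EP (nm F) ε fun v =>
      |(f (QuotientGroup.mk (σ v)) * zz τ v).re|) / lam ε) (𝓝[>] 0)
      (𝓝 (2 / Real.pi * avR U fun q => ‖f q‖)) := by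
  classical
  let _ : Fintype (GK F ⧸ U) := Fintype.ofFinite _
  set g : GK F ⧸ U → ℝ := fun q => ‖f q‖ with hg
  set u : GK F ⧸ U → ℂ := fun q => if f q = 0 then 1 else f q / (‖f q‖ : ℂ) with hu
  have hgc : ∀ a x, g (x * a * x⁻¹) = g a := fun a x => by rw [hg]; simp only; rw [hfc]
  have huc : ∀ a x, u (x * a * x⁻¹) = u a := fun a x => by rw [hu]; simp only; rw [hfc]
  have hgi : ∀ q, g q⁻¹ = g q := fun q => by
    rw [hg]; simp only; rw [hfi, Complex.norm_conj]
  have hui : ∀ q, u q⁻¹ = conj (u q) := by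
    intro q
    rw [hu]
    simp only
    rw [hfi]
    by_cases h : f q = 0
    · rw [if_pos h, if_pos (by rw [h, map_zero]), map_one]
    · rw [if_neg h, if_neg (by rwa [map_eq_zero]), map_div₀, Complex.norm_conj,
        Complex.conj_ofReal]
  have hu1 : ∀ q, ‖u q‖ = 1 := by
    intro q
    rw [hu]
    simp only
    split_ifs with h
    · exact norm_one
    · rw [norm_div, Complex.norm_real, norm_norm, div_self (norm_ne_zero_iff.2 h)]
  have hfu : ∀ q, f q = (g q : ℂ) * u q := by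
    intro q
    rw [hg, hu]
    simp only
    split_ifs with h
    · rw [h]; simp
    · rw [mul_div_cancel₀]
      exact_mod_cast norm_ne_zero_iff.2 h
  have habs : ∀ v : HeightOneSpectrum (𝓞 F), |(f (QuotientGroup.mk (σ v)) * zz τ v).re| =
      g (QuotientGroup.mk (σ v)) * |(u (QuotientGroup.mk (σ v)) * zz τ v).re| := by
    intro v
    rw [hfu, mul_assoc, Complex.re_ofReal_mul, abs_mul, abs_of_nonneg (norm_nonneg _)]
  have hre : ∀ v : HeightOneSpectrum (𝓞 F),
      |(u (QuotientGroup.mk (σ v)) * zz τ v).re| ≤ 1 := by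
    intro v
    refine (Complex.abs_re_le_norm _).trans ?_
    rw [norm_mul, hu1, norm_zz, one_mul]
  set S : ℝ := ∑ q, g q with hS
  have hS0 : 0 ≤ S := Finset.sum_nonneg fun q _ => norm_nonneg _
  have hgS : ∀ q, g q ≤ S := fun q =>
    Finset.single_le_sum (f := g) (fun q _ => norm_nonneg _) (Finset.mem_univ _)
  refine tendsto_of_approx (C := 2 * S) fun η hη => ?_
  obtain ⟨P, hP⟩ := exists_polynomial_near_of_continuousOn (-1) 1 (fun x : ℝ => |x|)
    continuous_abs.continuousOn η hη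
  have hP' : ∀ x ∈ Set.Icc (-1 : ℝ) 1, |P.eval x - abs x| ≤ η := fun x hx => (hP x hx).le
  obtain ⟨⟨B, hB⟩, hlim⟩ := poly_lim U hU g u hgc huc hgi hui hu1 σ hσ hτ P
  refine ⟨_, _, hlim, ?_, ?_⟩
  · have h1 : ∀ᶠ ε : ℝ in 𝓝[>] 0, (EP (nm F) ε fun _ => 1) / lam ε < 2 :=
      (EP_one F).eventually_lt_const (by norm_num)
    filter_upwards [h1, lam_tendsto.eventually_gt_atTop 0, self_mem_nhdsWithin] with ε h2 h3 h4
    have hε : (0 : ℝ) < ε := h4
    have hb0 : ∀ v : HeightOneSpectrum (𝓞 F),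
        |(fun v => |(f (QuotientGroup.mk (σ v)) * zz τ v).re|) v| ≤ S := by
      intro v
      simp only
      rw [abs_abs, habs]
      calc g (QuotientGroup.mk (σ v)) * |(u (QuotientGroup.mk (σ v)) * zz τ v).re| ≤ S * 1 :=
            mul_le_mul (hgS _) (hre v) (abs_nonneg _) hS0
        _ = S := mul_one S
    have hd : ∀ v : HeightOneSpectrum (𝓞 F), |(|(f (QuotientGroup.mk (σ v)) * zz τ v).re| +
        (-1) * (g (QuotientGroup.mk (σ v)) *
          P.eval ((u (QuotientGroup.mk (σ v)) * zz τ v).re)))| ≤ S * η := by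
      intro v
      rw [habs]
      have e : g (QuotientGroup.mk (σ v)) * |(u (QuotientGroup.mk (σ v)) * zz τ v).re| +
          (-1) * (g (QuotientGroup.mk (σ v)) *
            P.eval ((u (QuotientGroup.mk (σ v)) * zz τ v).re)) =
          g (QuotientGroup.mk (σ v)) * (|(u (QuotientGroup.mk (σ v)) * zz τ v).re| -
            P.eval ((u (QuotientGroup.mk (σ v)) * zz τ v).re)) := by ring
      rw [e, abs_mul, abs_of_nonneg (norm_nonneg _), abs_sub_comm]
      exact mul_le_mul (hgS _) (hP' _ (abs_le.1 (hre v))) (abs_nonneg _) hS0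
    have h5 := EP_add normSys hε hb0 (B' := B) (ψ := fun v => (-1) *
        (g (QuotientGroup.mk (σ v)) * P.eval ((u (QuotientGroup.mk (σ v)) * zz τ v).re)))
      (fun v => by rw [abs_mul, abs_neg, abs_one, one_mul]; exact hB v)
    rw [EP_const_mul] at h5
    have h6 : |EP (nm F) ε fun v => (|(f (QuotientGroup.mk (σ v)) * zz τ v).re| +
        (-1) * (g (QuotientGroup.mk (σ v)) *
          P.eval ((u (QuotientGroup.mk (σ v)) * zz τ v).re)))| ≤
        S * η * EP (nm F) ε fun _ => 1 := by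
      rw [abs_le]
      constructor
      · have h7 := EP_le normSys hε (φ := fun v => (-1) *
          (|(f (QuotientGroup.mk (σ v)) * zz τ v).re| +
          (-1) * (g (QuotientGroup.mk (σ v)) *
          P.eval ((u (QuotientGroup.mk (σ v)) * zz τ v).re)))) (B := S * η)
          (fun v => by rw [abs_mul, abs_neg, abs_one, one_mul]; exact hd v) (b := S * η)
          (fun v => by have := (abs_le.1 (hd v)).1; linarith)
        rw [EP_const_mul] at h7
        linarith
      · exact EP_le normSys hε hd fun v => (le_abs_self _).trans (hd v)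
    rw [h5] at h6
    rw [← sub_div, abs_div, abs_of_pos h3, div_le_iff₀ h3]
    have h8 : (EP (nm F) ε fun _ => 1) ≤ 2 * lam ε := by
      rw [div_lt_iff₀ h3] at h2
      exact h2.le
    calc |(EP (nm F) ε fun v => |(f (QuotientGroup.mk (σ v)) * zz τ v).re|) -
          EP (nm F) ε fun v => g (QuotientGroup.mk (σ v)) *
            P.eval ((u (QuotientGroup.mk (σ v)) * zz τ v).re)|
        = |(EP (nm F) ε fun v => |(f (QuotientGroup.mk (σ v)) * zz τ v).re|) +
          (-1) * EP (nm F) ε fun v => g (QuotientGroup.mk (σ v)) *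
            P.eval ((u (QuotientGroup.mk (σ v)) * zz τ v).re)| := by
          congr 1
          ring
      _ ≤ S * η * EP (nm F) ε fun _ => 1 := h6
      _ ≤ S * η * (2 * lam ε) := mul_le_mul_of_nonneg_left h8 (by positivity)
      _ = 2 * S * η * lam ε := by ring
  · have h1 : |(Mf fun x => P.eval x) - Mf (fun x => abs x)| ≤ η :=
      Mf_close P.continuous continuous_abs hP'
    rw [Mf_abs] at h1
    have h2 : 2 / Real.pi * avR U (fun q => ‖f q‖) - avR U g * (Mf fun x => P.eval x) =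
        avR U g * (2 / Real.pi - Mf fun x => P.eval x) := by
      rw [hg]
      ring
    rw [h2, abs_mul, abs_of_nonneg (avR_nonneg U fun q => norm_nonneg _), abs_sub_comm]
    calc avR U g * |(Mf fun x => P.eval x) - 2 / Real.pi| ≤ S * η :=
          mul_le_mul (avR_le U hgS) h1 (abs_nonneg _) hS0
      _ ≤ 2 * S * η := by nlinarith [mul_nonneg hS0 hη.le]

/-- the same for the height zero -/
theorem equi_zero (U : Subgroup (GK F)) [U.Normal] (hU : IsOpen (U : Set (GK F)))
    [Finite (GK F ⧸ U)] (f : GK F ⧸ U → ℂ) (hfc : ∀ a x, f (x * a * x⁻¹) = f a)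
    (σ : HeightOneSpectrum (𝓞 F) → GK F) (hσ : ∀ v, IsFrob v (σ v)) :
    Tendsto (fun ε : ℝ => (EP (nm F) ε fun v =>
      |(f (QuotientGroup.mk (σ v)) * zz 0 v).re|) / lam ε) (𝓝[>] 0)
      (𝓝 (avR U fun q => |(f q).re|)) := by
  have h1 := cheb_edge U hU (fun q => ((|(f q).re| : ℝ) : ℂ)) (fun a x => by rw [hfc])
    (avR U fun q => |(f q).re|) (avC_ofReal U _) σ hσ 0
  rw [if_pos rfl] at h1
  refine h1.congr fun ε => ?_
  congr 2
  funext v
  have h2 : zz 0 v = 1 := by
    unfold zz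
    simp
  have h3 : ((nm F v : ℕ) : ℂ) ^ (-(((0 : ℝ) : ℂ) * I)) = 1 := h2
  rw [h2, h3, mul_one, mul_one, Complex.ofReal_re]

end

end Pool.Agent.W353.L1
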